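import Pool.Agent.H58.BL.Stm
import Pool.Agent.H58.AG.Perron

/-!
# Weighted Perron lemma (project BL)
-/

set_option autoImplicit false

open Finset

namespace Pool.Agent.H25.BL

variable {m : ℕ}

/-- the unit vector -/
def ev (j : Fin m) : Fin m → ℤ := Pi.single j 1

theorem ev_apply (j : Fin m) : ev j j = 1 := by simp [ev]

theorem per {B : Finset (Fin m → ℤ)} {p : Fin m → ℝ} (hp : ∀ j, 0 ≤ p j)
    {w : Fin m → ℤ → ℝ} (hw : ∀ j i, 0 ≤ w j i)
    {g : (Fin m → ℤ) → ℝ} (hg : ∃ k ∈ B, g k ≠ 0) {R : ℝ} (hR0 : 0 ≤ R)
    (hR : R * ∑ k ∈ B, g k ^ 2 ≤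
      ∑ j, p j * ∑ k ∈ B, if k + ev j ∈ B then 2 * w j (k j) * (g k * g (k + ev j)) else 0) :
    ∃ f : (Fin m → ℤ) → ℝ, (∀ k, 0 ≤ f k) ∧ (∀ k, k ∉ B → f k = 0) ∧ (∃ k, f k ≠ 0) ∧
      ∀ k ∈ B, R * f k ≤ ∑ j, p j * (w j (k j - 1) * f (k - ev j) + w j (k j) * f (k + ev j)) := by
  classical
  set M : Matrix B B ℝ := fun k l => ∑ j, p j *
    (w j ((k : Fin m → ℤ) j - 1) * (if (l : Fin m → ℤ) = k - ev j then 1 else 0)
      + w j ((k : Fin m → ℤ) j) * (if (l : Fin m → ℤ) = k + ev j then 1 else 0))
    with hM
  -- the action of the matrix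
  have hact : ∀ (f : (Fin m → ℤ) → ℝ), (∀ k, k ∉ B → f k = 0) → ∀ k : B,
      ∑ l : B, M k l * f l = ∑ j, p j * (w j ((k : Fin m → ℤ) j - 1) * f (k - ev j)
        + w j ((k : Fin m → ℤ) j) * f (k + ev j)) := by
    intro f hf k
    have h1 : ∀ q : Fin m → ℤ, ∑ l : B, (if (l : Fin m → ℤ) = q then (1 : ℝ) else 0) * f l = f q := by
      intro q
      by_cases hq : q ∈ B
      · rw [sum_eq_single (⟨q, hq⟩ : B)]
        · simp
        · intro b _ hb
          have : (b : Fin m → ℤ) ≠ q := fun h => hb (Subtype.ext h)
          simp [this]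
        · simp
      · rw [hf q hq]
        apply sum_eq_zero
        intro l _
        have : (l : Fin m → ℤ) ≠ q := fun h => hq (h ▸ l.2)
        simp [this]
    simp only [hM]
    simp_rw [sum_mul]
    rw [sum_comm]
    apply sum_congr rfl
    intro j _
    rw [← h1 (k - ev j), ← h1 (k + ev j), mul_sum, mul_sum, ← sum_add_distrib, mul_sum]
    apply sum_congr rfl
    intro l _
    ring
  obtain ⟨k0, hk0, hgk0⟩ := hg
  -- the test function
  set gB : (Fin m → ℤ) → ℝ := fun k => if k ∈ B then g k else 0 with hgB
  have hgB0 : ∀ k, k ∉ B → gB k = 0 := fun k hk => by simp [hgB, hk]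
  obtain ⟨f, hf0, hfne, hf⟩ := Pool.Agent.H58.AG.perron_matrix (M := M)
    (g := fun k : B => gB k) (R := R) (by
      intro k l
      simp only [hM]
      apply sum_nonneg
      intro j _
      have h1 := hp j
      have h2 := hw j ((k : Fin m → ℤ) j - 1)
      have h3 := hw j ((k : Fin m → ℤ) j)
      refine mul_nonneg h1 (add_nonneg (mul_nonneg h2 ?_) (mul_nonneg h3 ?_))
      · split_ifs <;> norm_num
      · split_ifs <;> norm_num) (by
      intro k l
      simp only [hM]
      apply sum_congr rfl
      intro j _
      have e1 : ((l : Fin m → ℤ) = k - ev j) ↔ ((k : Fin m → ℤ) = l + ev j) := by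
        constructor
        · intro h
          rw [h]
          abel
        · intro h
          rw [h]
          abel
      have e2 : ((l : Fin m → ℤ) = k + ev j) ↔ ((k : Fin m → ℤ) = l - ev j) := by
        constructor
        · intro h
          rw [h]
          abel
        · intro h
          rw [h]
          abel
      have e3 : w j ((k : Fin m → ℤ) j - 1) * (if (l : Fin m → ℤ) = k - ev j then 1 else 0)
          = w j ((l : Fin m → ℤ) j) * (if (k : Fin m → ℤ) = l + ev j then 1 else 0) := by
        by_cases h : (l : Fin m → ℤ) = k - ev j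
        · rw [if_pos h, if_pos (e1.mp h)]
          have : (l : Fin m → ℤ) j = (k : Fin m → ℤ) j - 1 := by
            rw [h, Pi.sub_apply, ev_apply]
          rw [this]
        · rw [if_neg h, if_neg (fun h' => h (e1.mpr h'))]
          ring
      have e4 : w j ((k : Fin m → ℤ) j) * (if (l : Fin m → ℤ) = k + ev j then 1 else 0)
          = w j ((l : Fin m → ℤ) j - 1) * (if (k : Fin m → ℤ) = l - ev j then 1 else 0) := by
        by_cases h : (l : Fin m → ℤ) = k + ev j
        · rw [if_pos h, if_pos (e2.mp h)]
          have : (l : Fin m → ℤ) j - 1 = (k : Fin m → ℤ) j := by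
            rw [h, Pi.add_apply, ev_apply]
            ring
          rw [this]
        · rw [if_neg h, if_neg (fun h' => h (e2.mpr h'))]
          ring
      rw [e3, e4]
      ring) (by
      intro h
      have := congrFun h ⟨k0, hk0⟩
      simp only [hgB, hk0, if_true, Pi.zero_apply] at this
      exact hgk0 this) hR0 (by
      simp_rw [hact gB hgB0]
      have e1 : ∑ k : B, gB k ^ 2 = ∑ k ∈ B, g k ^ 2 := by
        rw [← sum_coe_sort B (fun k => g k ^ 2)]
        apply sum_congr rfl
        intro k _
        simp [hgB, k.2]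
      rw [e1]
      refine hR.trans (le_of_eq ?_)
      have e2 : ∑ k : B, (∑ j, p j * (w j ((k : Fin m → ℤ) j - 1) * gB (k - ev j)
          + w j ((k : Fin m → ℤ) j) * gB (k + ev j))) * gB k =
          ∑ j, p j * (∑ k ∈ B, w j (k j - 1) * gB (k - ev j) * gB k
            + ∑ k ∈ B, w j (k j) * gB (k + ev j) * gB k) := by
        rw [sum_coe_sort B (fun k => (∑ j, p j * (w j (k j - 1) * gB (k - ev j)
          + w j (k j) * gB (k + ev j))) * gB k)]
        simp_rw [sum_mul]
        rw [sum_comm]
        apply sum_congr rfl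
        intro j _
        rw [← sum_add_distrib, mul_sum]
        apply sum_congr rfl
        intro k _
        ring
      rw [e2]
      apply sum_congr rfl
      intro j _
      have e3 : ∑ k ∈ B, w j (k j) * gB (k + ev j) * gB k =
          ∑ k ∈ B, if k + ev j ∈ B then w j (k j) * (g k * g (k + ev j)) else 0 := by
        apply sum_congr rfl
        intro k hk
        simp only [hgB, hk, if_true]
        split_ifs
        · ring
        · ring
      have e5 : ∑ k ∈ B, (if k + ev j ∈ B then 2 * w j (k j) * (g k * g (k + ev j)) else 0) =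
          2 * ∑ k ∈ B, if k + ev j ∈ B then w j (k j) * (g k * g (k + ev j)) else 0 := by
        rw [mul_sum]
        apply sum_congr rfl
        intro k _
        split_ifs
        · ring
        · ring
      have e4 : ∑ k ∈ B, w j (k j - 1) * gB (k - ev j) * gB k
          = ∑ k ∈ B, w j (k j) * gB (k + ev j) * gB k := by
        have h1 : ∑ k ∈ B, w j (k j - 1) * gB (k - ev j) * gB k
            = ∑ k ∈ B with k - ev j ∈ B, w j (k j - 1) * gB (k - ev j) * gB k := by
          rw [sum_filter]
          apply sum_congr rfl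
          intro k _
          split_ifs with h
          · rfl
          · rw [hgB0 _ h]
            ring
        have h2 : ∑ k ∈ B, w j (k j) * gB (k + ev j) * gB k
            = ∑ k ∈ B with k + ev j ∈ B, w j (k j) * gB (k + ev j) * gB k := by
          rw [sum_filter]
          apply sum_congr rfl
          intro k _
          split_ifs with h
          · rfl
          · rw [hgB0 _ h]
            ring
        rw [h1, h2]
        refine sum_nbij' (fun k => k - ev j) (fun k => k + ev j) ?_ ?_ ?_ ?_ ?_
        · intro k hk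
          rw [mem_filter] at hk ⊢
          exact ⟨hk.2, by simpa using hk.1⟩
        · intro k hk
          rw [mem_filter] at hk ⊢
          exact ⟨hk.2, by simpa using hk.1⟩
        · intro k _
          simp
        · intro k _
          simp
        · intro k _
          simp only [sub_add_cancel, Pi.sub_apply, ev_apply]
          ring
      rw [e4, e3, e5]
      ring)
  refine ⟨fun k => if hk : k ∈ B then f ⟨k, hk⟩ else 0, ?_, ?_, ?_, ?_⟩
  · intro k
    by_cases hk : k ∈ B
    · simp [hk, hf0]
    · simp [hk]
  · intro k hk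
    simp [hk]
  · by_contra h
    push Not at h
    apply hfne
    ext k
    have := h k
    simpa using this
  · intro k hk
    have h1 := hf ⟨k, hk⟩
    have h2 := hact (fun k => if hk : k ∈ B then f ⟨k, hk⟩ else 0) (fun k hk => by simp [hk]) ⟨k, hk⟩
    simp only [hk, dif_pos]
    rw [← h2]
    refine h1.trans (le_of_eq ?_)
    apply sum_congr rfl
    intro l _
    simp

/-- **S_PER** -/
theorem t_per : Pool.Agent.H58.BL.S_PER := by
  intro m B p w g R hp hw hg hR0 hR
  exact per hp hw hg hR0 hR

end Pool.Agent.H25.BL
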